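import Mathlib
import Pool.Agent.W495.FM.HomDefs

/-!
# Abelian varieties over finite fields with Frobenius elements in a family: definitions
-/

set_option autoImplicit false

namespace Pool.Agent.Helper43x.PK

open Pool.Agent.W495.TA Pool.Agent.W495.FM

/-- A power of `x` is a power of the square root of `p ^ a`. -/
def IsSupersingular (p a : ℕ) {E : Type} [Field E] (x : E) : Prop :=
  ∃ s : ℕ, 0 < s ∧ x ^ (2 * s) = ((p : E) ^ a) ^ s

/-- Each factor of the abelian variety `Y` over the field with `p ^ a` elements is supersingular, or some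
power of its Frobenius endomorphism is the image of the power of one of the `π i`, Weil numbers for `p ^ b`,
under an embedding of `K i` in the CM field of the factor (the powers belong to the same finite field). -/
def OfFamily {p : ℕ} [Fact p.Prime] {ν : PadicAlgCl p ≃+* ℂ} {I : Type} {K : I → Type}
    [∀ i, Field (K i)] (π : ∀ i, K i) (b : ℕ) (Y : RedAV p ν) : Prop :=
  ∀ k : Y.X.I, IsSupersingular p Y.a (Y.π k) ∨
    ∃ (i : I) (θ : K i →+* (Y.X.factor k).E) (s t : ℕ), 0 < s ∧ 0 < t ∧ Y.a * s = b * t ∧
      Y.π k ^ s = θ (π i) ^ t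

/-- The groups of motivic and of `ℓ`-adic homology of `X` are those of an abelian variety `Y` which belongs
to the family `π`. -/
def IsAbelianOfFamily {p : ℕ} [Fact p.Prime] (ν : PadicAlgCl p ≃+* ℂ) {I : Type} {K : I → Type}
    [∀ i, Field (K i)] (π : ∀ i, K i) (b : ℕ) {Ω V : Type} [Field Ω]
    [CharZero Ω] (T : Homology Ω V) (X : V) : Prop :=
  ∃ (Y : RedAV p ν) (C : Cycles Ω Y) (D : Motivic C) (g : ℕ), OfFamily π b Y ∧ IsChow C ∧
    IsMotivic D ∧ IsAbelian T X D g

end Pool.Agent.Helper43x.PK
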