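import Mathlib
import Pool.Agent.TH170.GS.Rel
import Pool.Agent.Helper43x.NF.MT
import Pool.Agent.Helper43x.PK.Defs

/-!
# The relations between the Frobenius eigenvalues of the abelian varieties in a family
-/

set_option autoImplicit false
set_option linter.unusedSectionVars false

namespace Pool.Agent.Helper43x.PK

open NumberField Finset Module Pool.Agent.H204R3.CM Pool.Agent.H977R3.CM Pool.Agent.TH170.CM
  Pool.Agent.TH170.MF Pool.Agent.W495.TA Pool.Agent.TH117 Pool.Agent.TH170.FW Pool.Agent.TH170.GS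
open Pool.Agent.Helper43x.ZO (NoRel cj Dv WeilTuple)

variable {p : ℕ} [Fact p.Prime] {ν : PadicAlgCl p ≃+* ℂ} {I : Type} [Fintype I] {K : I → Type}
  [∀ i, Field (K i)] [∀ i, NumberField (K i)] [∀ i, IsCMField (K i)]

/-- no relations between the complex embeddings -/
theorem complex_norel {A : Type} [Field A] [CharZero A] [Algebra ℚ A] [IsAlgClosed A]
    [Algebra.IsAlgebraic ℚ A] {b : ℕ} {π : ∀ i, K i}
    (hno : NoRel (cj (K := K) (A := A)) (Dv p b π)) (c : (Σ i, K i →+* ℂ) → ℝ)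
    (hc : ∀ z, c ⟨z.1, ComplexEmbedding.conjugate z.2⟩ = - c z)
    (hrel : ∀ σ : ℂ ≃+* ℂ, ∑ z : (Σ i, K i →+* ℂ), c z *
      (2 * (- Real.logb p ‖ν.symm (σ (z.2 (π z.1)))‖) - b) = 0) (z : Σ i, K i →+* ℂ) : c z = 0 := by
  classical
  have hp1 : (1 : ℝ) < p := by exact_mod_cast (Fact.out : p.Prime).one_lt
  have hlp : Real.log p ≠ 0 := (Real.log_pos hp1).ne'
  let ι : A →+* ℂ := (IsAlgClosed.lift : A →ₐ[ℚ] ℂ).toRingHom
  let up : (Σ i, K i →+* A) → (Σ i, K i →+* ℂ) := fun j => ⟨j.1, ι.comp j.2⟩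
  have hup : Function.Bijective up := by
    constructor
    · rintro ⟨i, φ⟩ ⟨i', ψ⟩ h
      have h1 : i = i' := congrArg Sigma.fst h
      subst h1
      have h2 : ι.comp φ = ι.comp ψ := eq_of_heq (Sigma.mk.inj h).2
      congr 1
      ext z
      apply ι.injective
      exact congrArg (fun f : K i →+* ℂ => f z) h2
    · rintro ⟨i, ψ⟩
      obtain ⟨τ, hτ⟩ := ZO.exists_factor' ι ψ
      exact ⟨⟨i, τ⟩, by
        simp only [up]
        congr 1
        exact RingHom.ext hτ⟩
  have h1 := hno (fun j => c (up j)) (by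
    intro j
    have h2 : up (cj j) = ⟨(up j).1, ComplexEmbedding.conjugate (up j).2⟩ := by
      obtain ⟨i, τ⟩ := j
      change (⟨i, ι.comp (τ.comp (IsCMField.complexConj (K i) : K i →+* K i))⟩ : Σ i, K i →+* ℂ) =
        ⟨i, ComplexEmbedding.conjugate (ι.comp τ)⟩
      congr 1
      ext z
      exact IsCMField.complexEmbedding_complexConj (K i) (ι.comp τ) z
    rw [h2, hc]) (by
    intro e
    -- the automorphism
    let e₀ : A →+* PadicAlgCl p := (ν.symm : ℂ →+* PadicAlgCl p).comp ι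
    obtain ⟨g, hg⟩ := UC.exists_aut e₀ e
    obtain ⟨σ, hσ⟩ := H977R3.CM.exists_aut ι g
    have h2 := hrel σ
    rw [← Fintype.sum_equiv (Equiv.ofBijective up hup) (fun j => c (up j) *
      (2 * (- Real.logb p ‖ν.symm (σ ((up j).2 (π (up j).1)))‖) - b)) _ (fun j => rfl)] at h2
    have h3 : ∀ j : (Σ i, K i →+* A), c (up j) * Dv p b π e j = (- Real.log p) * (c (up j) *
      (2 * (- Real.logb p ‖ν.symm (σ ((up j).2 (π (up j).1)))‖) - b)) := by
      intro j
      have h4 : ν.symm (σ ((up j).2 (π (up j).1))) = e (j.2 (π j.1)) := by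
        change ν.symm (σ (ι (j.2 (π j.1)))) = _
        rw [hσ, hg]
        rfl
      rw [h4]
      unfold Dv H485R3.Exact.ldev Real.logb
      field_simp
      ring
    rw [Finset.sum_congr rfl (fun j _ => h3 j), ← Finset.mul_sum, h2, mul_zero])
  obtain ⟨j, rfl⟩ := hup.2 z
  exact congrFun h1 j

/-- All relations between the Frobenius eigenvalues of an abelian variety in a family without relations
are elementary. -/
theorem elementary_of_norel {A : Type} [Field A] [CharZero A] [Algebra ℚ A] [IsAlgClosed A]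
    [Algebra.IsAlgebraic ℚ A] {b : ℕ} (hb : 0 < b) {π : ∀ i, K i} (hπ : WeilTuple p b π)
    (hno : NoRel (cj (K := K) (A := A)) (Dv p b π)) {Y : RedAV p ν} (hY : OfFamily π b Y) :
    BL.HasElementaryRelations Y := by
  classical
  intro e he
  have hp1 : (1 : ℝ) < p := by exact_mod_cast (Fact.out : p.Prime).one_lt
  have hb' : (b : ℝ) ≠ 0 := Nat.cast_ne_zero.2 hb.ne'
  have ha' : (Y.a : ℝ) ≠ 0 := Nat.cast_ne_zero.2 Y.pos.ne'
  let S : Y.X.I → Prop := fun k =>
    ∃ s : ℕ, 0 < s ∧ Y.π k ^ (2 * s) = ((p : (Y.X.factor k).E) ^ Y.a) ^ s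
  have hY' : ∀ k, ¬ S k → ∃ (i : I) (θ : K i →+* (Y.X.factor k).E) (s t : ℕ), 0 < s ∧ 0 < t ∧
      Y.a * s = b * t ∧ Y.π k ^ s = θ (π i) ^ t := fun k hk => (hY k).resolve_left hk
  choose t θ s u hs hu hsu hθ using hY'
  let ε : (Σ i, K i →+* ℂ) → ℝ := fun z => 2 * (- Real.logb p ‖ν.symm (z.2 (π z.1))‖) - b
  let X : Type := Σ i, (K i →+* ℂ)
  let inv : X → X := fun z => ⟨z.1, ComplexEmbedding.conjugate z.2⟩
  have hinv : ∀ z, inv (inv z) = z := by
    rintro ⟨i, φ⟩
    simp only [inv, conj_conj]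
  have hπ0 : ∀ i, π i ≠ 0 := fun i => ZO.weil_ne hπ i
  have hεc : ∀ z, ε (inv z) = - ε z := by
    rintro ⟨i, φ⟩
    have h1 : φ (π i) * ComplexEmbedding.conjugate φ (π i) = (p : ℂ) ^ b := by
      have h0 : ComplexEmbedding.conjugate φ (π i) = φ (IsCMField.complexConj (K i) (π i)) :=
        (IsCMField.complexEmbedding_complexConj (K i) φ (π i)).symm
      rw [h0, ← map_mul, ZO.weil_mul hπ, map_pow, map_natCast]
    have h2 := congrArg (fun y => Real.logb p ‖ν.symm y‖) h1
    simp only [map_mul, map_pow, norm_mul, norm_pow, norm_symm_p] at h2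
    rw [Real.logb_mul, Real.logb_pow, Real.logb_inv, Real.logb_self_eq_one hp1] at h2
    · simp only [ε, inv]
      linarith
    · rw [norm_ne_zero_iff, map_ne_zero, map_ne_zero]
      exact hπ0 i
    · rw [norm_ne_zero_iff, map_ne_zero, map_ne_zero]
      exact hπ0 i
  let F : BL.Emb Y → Option X := fun w =>
    if h : S w.1 then none else some ⟨t w.1 h, w.2.comp (θ w.1 h)⟩
  have hF1 : ∀ w, S w.1 → F w = none := fun w h => dif_pos h
  have hF2 : ∀ w (h : ¬ S w.1), F w = some ⟨t w.1 h, w.2.comp (θ w.1 h)⟩ := fun w h => dif_neg h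
  have hFc : ∀ w z, F w = some z → F (conjE w) = some (inv z) := by
    intro w z hz
    by_cases h : S w.1
    · rw [hF1 w h] at hz
      exact absurd hz (by simp)
    · rw [hF2 w h] at hz
      rw [← Option.some.inj hz, hF2 (conjE w) h]
      rfl
  -- the slopes
  have hdev0 : ∀ w, F w = none → ∀ σ, dev Y σ w = 0 := by
    intro w hw σ
    have h : S w.1 := by
      by_contra h
      rw [hF2 w h] at hw
      exact absurd hw (by simp)
    have h1 := sum_dev_of_isRel (isRel_single w h) σ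
    rw [sum_eq_single w] at h1
    · rwa [Pi.single_eq_same, Nat.cast_one, one_mul] at h1
    · intro v _ hv
      rw [Pi.single_eq_of_ne hv, Nat.cast_zero, zero_mul]
    · intro h
      exact absurd (mem_univ _) h
  have hdev : ∀ w z, F w = some z → ∀ σ : ℂ ≃+* ℂ,
      dev Y σ w = (Y.a / b : ℝ) * ε ⟨z.1, (σ : ℂ →+* ℂ).comp z.2⟩ := by
    intro w z hz σ
    by_cases h : S w.1
    · rw [hF1 w h] at hz
      exact absurd hz (by simp)
    · rw [hF2 w h] at hz
      rw [← Option.some.inj hz]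
      have h1 := congrArg (fun y => Real.logb p ‖ν.symm (σ (w.2 y))‖) (hθ w.1 h)
      simp only [map_pow, norm_pow, Real.logb_pow] at h1
      have h2 : w.2 (Y.π w.1) = BL.eig Y w := rfl
      rw [h2] at h1
      have h3 : (Y.a : ℝ) * s w.1 h = b * u w.1 h := by exact_mod_cast hsu w.1 h
      have hs0 : (s w.1 h : ℝ) ≠ 0 := Nat.cast_ne_zero.2 (hs w.1 h).ne'
      have h4 : ε ⟨t w.1 h, (σ : ℂ →+* ℂ).comp (w.2.comp (θ w.1 h))⟩ =
          2 * (- Real.logb p ‖ν.symm (σ (w.2 (θ w.1 h (π (t w.1 h)))))‖) - b := rfl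
      rw [h4]
      unfold dev
      set x := Real.logb p ‖ν.symm (σ (BL.eig Y w))‖
      set y := Real.logb p ‖ν.symm (σ (w.2 (θ w.1 h (π (t w.1 h)))))‖
      have h5 : (b : ℝ) * (s w.1 h * x) = Y.a * (s w.1 h * y) := by
        rw [h1]
        linear_combination (-y) * h3
      have h6 : (b : ℝ) * x = Y.a * y := by
        apply mul_left_cancel₀ hs0
        linear_combination h5
      field_simp
      linear_combination (-2) * h6
  -- the antisymmetric exponents
  let c : X → ℝ := fun z =>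
    ∑ w : BL.Emb Y, (e w : ℝ) * ((if F w = some z then 1 else 0) -
      (if F w = some (inv z) then 1 else 0))
  have hc : ∀ z : X, c (inv z) = - c z := by
    intro z
    simp only [c]
    rw [hinv, ← sum_neg_distrib]
    exact sum_congr rfl fun w _ => by ring
  have hrel' : ∀ σ : ℂ ≃+* ℂ, ∑ z : X, c z *
      (2 * (- Real.logb p ‖ν.symm (σ (z.2 (π z.1)))‖) - b) = 0 := by
    intro σ
    have h0 : ∀ z : X, (2 * (- Real.logb p ‖ν.symm (σ (z.2 (π z.1)))‖) - b : ℝ) =
        ε ⟨z.1, (σ : ℂ →+* ℂ).comp z.2⟩ := fun z => rfl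
    have h1 : ∑ z : X, c z * (2 * (- Real.logb p ‖ν.symm (σ (z.2 (π z.1)))‖) - b) =
        ∑ z : X, ∑ w : BL.Emb Y, (e w : ℝ) * (((if F w = some z then 1 else 0) -
          (if F w = some (inv z) then 1 else 0)) * ε ⟨z.1, (σ : ℂ →+* ℂ).comp z.2⟩) := by
      refine sum_congr rfl fun z _ => ?_
      rw [h0]
      simp only [c]
      rw [sum_mul]
      exact sum_congr rfl fun w _ => by ring
    rw [h1, sum_comm]
    have h2 : ∀ w : BL.Emb Y, ∑ z : X, (e w : ℝ) * (((if F w = some z then 1 else 0) -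
          (if F w = some (inv z) then 1 else 0)) * ε ⟨z.1, (σ : ℂ →+* ℂ).comp z.2⟩) =
        2 * (b / Y.a : ℝ) * ((e w : ℝ) * dev Y σ w) := by
      intro w
      rw [← mul_sum]
      rcases hw : F w with _ | z
      · rw [hdev0 w hw]
        simp
      · have h3 : ∀ z' : X, (((if some z = some z' then (1 : ℝ) else 0) -
            (if some z = some (inv z') then 1 else 0)) * ε ⟨z'.1, (σ : ℂ →+* ℂ).comp z'.2⟩) =
            (if z = z' then ε ⟨z'.1, (σ : ℂ →+* ℂ).comp z'.2⟩ else 0) -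
              (if inv z = z' then ε ⟨z'.1, (σ : ℂ →+* ℂ).comp z'.2⟩ else 0) := by
          intro z'
          have h4 : (z = inv z') ↔ (inv z = z') :=
            ⟨fun h => by rw [h, hinv], fun h => by rw [← h, hinv]⟩
          simp only [Option.some_inj, h4]
          split_ifs <;> ring
        rw [sum_congr rfl fun z' _ => h3 z', sum_sub_distrib, sum_ite_eq univ z,
          sum_ite_eq univ (inv z), if_pos (mem_univ _), if_pos (mem_univ _), hdev w z hw σ]
        have h5 : ε ⟨(inv z).1, (σ : ℂ →+* ℂ).comp (inv z).2⟩ =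
            - ε ⟨z.1, (σ : ℂ →+* ℂ).comp z.2⟩ := by
          rw [← hεc]
          change ε ⟨z.1, (σ : ℂ →+* ℂ).comp (ComplexEmbedding.conjugate z.2)⟩ = _
          rw [TH170.QC.comp_conj]
        rw [h5]
        field_simp
        ring
    rw [sum_congr rfl fun w _ => h2 w, ← mul_sum, sum_dev_of_isRel he, mul_zero]
  have h0 : ∀ z, c z = 0 := fun z => complex_norel (ν := ν) hno c hc hrel' z
  refine mem_of_symm _ F inv hinv ?_ ?_ ?_ ?_ (fun w => (e w : ℤ)) ?_
  · rintro ⟨i, φ⟩ h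
    exact conj_ne φ (eq_of_heq (Sigma.mk.inj h).2)
  · intro w hw
    apply single_mem
    by_contra h
    have h1 := hF2 w h
    rw [hw] at h1
    exact absurd h1 (by simp)
  · intro w w' z hz hz'
    refine pair_mem w w' fun σ => ?_
    rw [hdev w z hz, hdev w' (inv z) hz']
    have h5 : ε ⟨(inv z).1, (σ : ℂ →+* ℂ).comp (inv z).2⟩ =
        - ε ⟨z.1, (σ : ℂ →+* ℂ).comp z.2⟩ := by
      rw [← hεc]
      change ε ⟨z.1, (σ : ℂ →+* ℂ).comp (ComplexEmbedding.conjugate z.2)⟩ = _
      rw [TH170.QC.comp_conj]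
    rw [h5]
    ring
  · intro w z hz
    exact ⟨conjE w, hFc w z hz⟩
  · intro z
    have h1 := h0 z
    simp only [c, mul_sub, mul_ite, mul_one, mul_zero, sum_sub_distrib] at h1
    have h2 := sub_eq_zero.1 h1
    have h3 : ((∑ w, (if F w = some z then (e w : ℤ) else 0) : ℤ) : ℝ) =
        ((∑ w, (if F w = some (inv z) then (e w : ℤ) else 0) : ℤ) : ℝ) := by
      push_cast
      exact h2
    exact_mod_cast h3

end Pool.Agent.Helper43x.PK
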