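import Mathlib
import Pool.Agent.Helper43x.PK.Rel
import Pool.Agent.Helper43x.NF.Indep
import Pool.Agent.TH117.GN.Main

/-!
# Schemes over finite fields generated by the abelian varieties in a family
-/

set_option autoImplicit false

namespace Pool.Agent.Helper43x.PK

open NumberField Pool.Agent.W495.TA Pool.Agent.W495.FM Pool.Agent.TH117 Pool.Agent.TH117.GN
open Pool.Agent.Helper43x.ZO Pool.Agent.Helper43x.NF

theorem tb_family {p : ℕ} [Fact p.Prime] {ν : PadicAlgCl p ≃+* ℂ} {I : Type} [Fintype I] {K : I → Type}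
    [∀ i, Field (K i)] [∀ i, NumberField (K i)] [∀ i, IsCMField (K i)] {b : ℕ} (hb : 0 < b)
    {π : ∀ i, K i} (hπ : WeilTuple p b π)
    (hno : NoRel (cj (K := K) (A := AlgebraicClosure ℚ)) (Dv p b π))
    {Ω V : Type} [Field Ω] [IsAlgClosed Ω] [CharZero Ω] {T : Homology Ω V} (hT : IsHomology T)
    {X : V} (hX : Generated T (IsAbelianOfFamily ν π b T) X) : TB T X := by
  obtain ⟨_, halg⟩ : ∃ _ : Algebra ℚ (AlgebraicClosure ℚ),
      Algebra.IsAlgebraic ℚ (AlgebraicClosure ℚ) := ⟨_, AlgebraicClosure.isAlgebraic ℚ⟩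
  refine tb_generated hT (fun X hX => ?_) hX
  obtain ⟨Y, C, D, g, h1, hC, hD, hX⟩ := hX
  refine tb_abelian hT hC (tateHolds_elem (elementary_of_norel hb hπ hno h1) (fun k => Or.inr
    ⟨k, RingHom.id _, 1, 1, one_pos, one_pos, rfl, rfl⟩) hC) hD hX

end Pool.Agent.Helper43x.PK
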